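import Pool.Agent.H957R2.Final

set_option autoImplicit false

open MvPolynomial Pool.Agent.H957R2

namespace Pool.Agent.Results.MP_f4858a_ag.EffConesProduct

/-- Let `B ⊆ P^M` be a nonempty closed subvariety (for example `B = P^M`, `M ≥ 3`, given by `E = ∅`)
and let `Y = P^1 × B`, `A = O(a, b)` with `a, b ≥ 1`. For every `d ≥ 1` with `d a ≥ M` there is a
homogeneous polynomial `Φ` in the coefficients of forms of bidegree `(d a, d b)`, not vanishing
identically on these forms, such that for every form `F` of bidegree `(d a, d b)` with `Φ(F) ≠ 0`,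
that is, for a general member `X = Y ∩ {F = 0}` of `|d A|`, the push-forward
`i_* : N_1(X) → N_1(Y)` does not map `Eff_1(X)` onto `Eff_1(Y)`. -/
theorem result (M : ℕ) (E : Set (MvPolynomial (Fin (M + 1)) ℂ))
    (hE : ∀ g ∈ E, ∃ n, g.IsHomogeneous n)
    (hB : ∃ q : Fin (M + 1) → ℂ, q ≠ 0 ∧ ∀ g ∈ E, eval q g = 0)
    (a b d : ℕ) (ha : 0 < a) (hb : 0 < b) (hd : 0 < d) (hM : M ≤ d * a) :
    ∃ (Φ : MvPolynomial ((Fin 2 ⊕ Fin (M + 1)) →₀ ℕ) ℂ) (n : ℕ), Φ.IsHomogeneous n ∧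
      (∃ F : CoordRing M, IsBihom F (d * a) (d * b) ∧ eval (fun α => coeff α F) Φ ≠ 0) ∧
      ∀ (F : CoordRing M) (hF : IsBihom F (d * a) (d * b)), eval (fun α => coeff α F) Φ ≠ 0 →
        push (hyper_le (prodP1 E hE) F hF) '' Eff1 (hyper (prodP1 E hE) F hF) ≠
          Eff1 (prodP1 E hE) := by
  refine ⟨Phi M (d * a) (d * b), _, Phi_hom _ _ _,
    ⟨F0 M (d * a) (d * b), F0_bihom _ _ _ hM, ?_⟩, ?_⟩
  · rw [Phi_F0]
    exact one_ne_zero
  · intro F hF hΦ
    exact main E hE hB (d * a) (d * b) hM (Nat.mul_pos hd hb) F hF hΦ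

end Pool.Agent.Results.MP_f4858a_ag.EffConesProduct
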